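import Pool.Agent.Lib.MP_51bb46_lc.S.Reloc
import Pool.Agent.Lib.MP_51bb46_lc.S.Path

/-!
Theorem D (namespace `FrD`): embedding of a graph in the grid.  The vertex number `a` is mapped to
the point `(a, 0, 0, …)`, the edge number `b` is mapped to a path that leaves the vertical lines over
its endpoints at height `b`.
-/

set_option linter.unusedSectionVars false

namespace FrD

open Finset Fr56
open scoped Classical

/-- the point `(a, b, 0, …)` -/
def p2 (D : ℕ) (a b : ℤ) : FrS.V D := fun k => if k = 0 then a else if k = 1 then b else 0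

/-- numberings of the vertices and of the edges by numbers less than `n` -/
structure Nmb (V E : Type) (n : ℕ) where
  ι : V → ℤ
  η : E → ℤ
  ι_inj : ∀ v w, ι v = ι w → v = w
  η_inj : ∀ e f, η e = η f → e = f
  ι_rg : ∀ v, 0 ≤ ι v ∧ ι v < n
  η_rg : ∀ e, 0 ≤ η e ∧ η e < n

theorem exists_nmb {V E : Type} [Fintype V] [Fintype E] {n : ℕ} (hV : Fintype.card V ≤ n)
    (hE : Fintype.card E ≤ n) : Nonempty (Nmb V E n) := by
  refine ⟨⟨fun v => ((Fintype.equivFin V v).val : ℤ), fun e => ((Fintype.equivFin E e).val : ℤ),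
    fun v w h => ?_, fun e f h => ?_, fun v => ⟨by positivity, ?_⟩, fun e => ⟨by positivity, ?_⟩⟩⟩
  · exact (Fintype.equivFin V).injective (Fin.ext (by exact_mod_cast h))
  · exact (Fintype.equivFin E).injective (Fin.ext (by exact_mod_cast h))
  · exact_mod_cast lt_of_lt_of_le (Fin.is_lt _) hV
  · exact_mod_cast lt_of_lt_of_le (Fin.is_lt _) hE

theorem p2_zero {D : ℕ} (a b : ℤ) : p2 D a b 0 = a := by simp [p2]

theorem p2_one {D : ℕ} (a b : ℤ) : p2 D a b 1 = b := by
  have h : (1 : Fin (D + 3)) ≠ 0 := by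
    intro h
    have := congrArg Fin.val h
    simp at this
  simp [p2, h]

theorem p2_mem_box {D n : ℕ} {a b : ℤ} (ha : 0 ≤ a ∧ a < n) (hb : 0 ≤ b ∧ b < n) :
    p2 D a b ∈ FrS.box D n := by
  rw [FrS.mem_box]
  intro k
  unfold p2
  split_ifs
  · exact ha
  · exact hb
  · exact ⟨le_rfl, by omega⟩

section
variable {V E : Type} [Fintype V] [Fintype E] [DecidableEq V] [DecidableEq E] (G : FrC.Gph V E)
  {D n : ℕ} (ν : Nmb V E n)

/-- the path of an edge -/
noncomputable def Pe (D : ℕ) (e : E) : FrS.Ch D :=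
  FrS.cp (p2 D (ν.ι (G.tgt e)) (ν.η e)) (p2 D (ν.ι (G.src e)) 0) +
    FrS.cp (p2 D (ν.ι (G.tgt e)) (ν.η e)) (p2 D (ν.ι (G.tgt e)) 0)

/-- the chain of the grid of a chain of `G` -/
noncomputable def X (D : ℕ) (v0 : V) (y : E → ZMod 2) : FrS.Ch D :=
  FrS.cp 0 (p2 D (ν.ι v0) 0) + fun z => ∑ e, y e * Pe G ν D e z

/-- the vertices of `G` revealed by reading an edge of the grid -/
noncomputable def rv (z : FrS.E D) : Finset V :=
  (univ.filter fun v => ν.ι v = z.1 0) ∪ (univ.filter fun v => ν.ι v = (z.1 + FrS.ev z.2) 0) ∪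
    ((univ.filter fun e => ν.η e = z.1 1).biUnion fun e => {G.src e, G.tgt e})

theorem card_rv (z : FrS.E D) : (rv G ν z).card ≤ 4 := by
  have h1 : ∀ a : ℤ, (univ.filter fun v => ν.ι v = a).card ≤ 1 := by
    intro a
    rw [Finset.card_le_one]
    intro v hv w hw
    rw [Finset.mem_filter] at hv hw
    exact ν.ι_inj v w (hv.2.trans hw.2.symm)
  have h2 : (univ.filter fun e => ν.η e = z.1 1).card ≤ 1 := by
    rw [Finset.card_le_one]
    intro v hv w hw
    rw [Finset.mem_filter] at hv hw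
    exact ν.η_inj v w (hv.2.trans hw.2.symm)
  have h3 : ((univ.filter fun e => ν.η e = z.1 1).biUnion
      fun e => ({G.src e, G.tgt e} : Finset V)).card ≤ 1 * 2 := by
    refine (Finset.card_biUnion_le_card_mul _ _ 2 fun e _ => Finset.card_le_two).trans ?_
    exact Nat.mul_le_mul_right _ h2
  unfold rv
  have h4 := Finset.card_union_le ((univ.filter fun v => ν.ι v = z.1 0) ∪
    (univ.filter fun v => ν.ι v = (z.1 + FrS.ev z.2) 0))
    ((univ.filter fun e => ν.η e = z.1 1).biUnion fun e => ({G.src e, G.tgt e} : Finset V))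
  have h5 := Finset.card_union_le (univ.filter fun v => ν.ι v = z.1 0)
    (univ.filter fun v => ν.ι v = (z.1 + FrS.ev z.2) 0)
  have h6 := h1 (z.1 0)
  have h7 := h1 ((z.1 + FrS.ev z.2) 0)
  omega

/-- the violated vertex is far from what is read -/
theorem far_of_rv {z : FrS.E D} {U : Finset V} (h : rv G ν z ⊆ U) {t : V} (ht : t ∉ U) :
    z.1 0 ≠ ν.ι t ∧ (z.1 + FrS.ev z.2) 0 ≠ ν.ι t := by
  refine ⟨fun he => ht (h ?_), fun he => ht (h ?_)⟩
  · unfold rv
    simp only [Finset.mem_union, Finset.mem_filter, Finset.mem_univ, true_and]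
    exact Or.inl (Or.inl he.symm)
  · unfold rv
    simp only [Finset.mem_union, Finset.mem_filter, Finset.mem_univ, true_and]
    exact Or.inl (Or.inr he.symm)

theorem inc_of_Pe {z : FrS.E D} {e : E} (h : Pe G ν D e z ≠ 0) : e ∈ G.inc (rv G ν z) := by
  have hh : e ∈ G.inc (rv G ν z) ∨ ν.η e = z.1 1 := by
    by_contra hcon
    push Not at hcon
    obtain ⟨h1, h2⟩ := hcon
    apply h
    have hne : ∀ v, v = G.src e ∨ v = G.tgt e → ν.ι v ≠ z.1 0 := by
      intro v hv hv'
      apply h1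
      have hmem : v ∈ rv G ν z := by
        unfold rv
        simp only [Finset.mem_union, Finset.mem_filter, Finset.mem_univ, true_and]
        exact Or.inl (Or.inl hv')
      rcases hv with rfl | rfl
      · exact Or.inl hmem
      · exact Or.inr hmem
    have key : ∀ v, v = G.src e ∨ v = G.tgt e →
        FrS.cp (p2 D (ν.ι (G.tgt e)) (ν.η e)) (p2 D (ν.ι v) 0) z = 0 := by
      intro v hv
      by_contra hne'
      obtain ⟨g1, g2, -, -⟩ := FrS.Path_of_ne hne'
      by_cases hz : (0 : Fin (D + 3)) < z.2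
      · have := g1 0 hz
        rw [p2_zero] at this
        exact hne v hv this.symm
      · have hz0 : z.2 = 0 := by
          by_contra hz1
          exact hz (Fin.pos_iff_ne_zero.2 hz1)
        have h01 : z.2 < 1 := by
          rw [hz0]
          have : ((0 : Fin (D + 3)).val < (1 : Fin (D + 3)).val) := by simp
          exact this
        have := g2 1 h01
        rw [p2_one] at this
        exact h2 this.symm
    show FrS.cp _ _ z + FrS.cp _ _ z = 0
    rw [key _ (Or.inl rfl), key _ (Or.inr rfl), add_zero]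
  rcases hh with hh | hh
  · exact hh
  · refine Or.inl ?_
    unfold rv
    simp only [Finset.mem_union, Finset.mem_biUnion, Finset.mem_filter, Finset.mem_univ, true_and,
      Finset.mem_insert, Finset.mem_singleton]
    exact Or.inr ⟨e, hh, Or.inl rfl⟩

/-- what is read is determined by the revealed vertices -/
theorem X_congr {v0 : V} {z : FrS.E D} {U : Finset V} (h : rv G ν z ⊆ U) {y y' : E → ZMod 2}
    (hy : G.Agree U y y') : X G ν D v0 y z = X G ν D v0 y' z := by
  unfold X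
  rw [Pi.add_apply, Pi.add_apply]
  congr 1
  refine Finset.sum_congr rfl fun e _ => ?_
  by_cases he : Pe G ν D e z = 0
  · rw [he, mul_zero, mul_zero]
  · have h1 := FrC.Gph.inc_mono G h (inc_of_Pe G ν he)
    rw [hy e h1]

theorem bd_Pe (e : E) : FrS.bd (Pe G ν D e) =
    FrS.dl (p2 D (ν.ι (G.src e)) 0) + FrS.dl (p2 D (ν.ι (G.tgt e)) 0) := by
  unfold Pe
  rw [FrS.bd_add, FrS.bd_cp, FrS.bd_cp]
  set a := (FrS.dl (p2 D (ν.ι (G.tgt e)) (ν.η e)) : FrS.V D → ZMod 2)
  set b := (FrS.dl (p2 D (ν.ι (G.src e)) 0) : FrS.V D → ZMod 2)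
  set c := (FrS.dl (p2 D (ν.ι (G.tgt e)) 0) : FrS.V D → ZMod 2)
  have : a + b + (a + c) = (a + a) + (b + c) := by abel
  rw [this, FrS.add_self_fun, zero_add]

theorem bd_lin (y : E → ZMod 2) (P : E → FrS.Ch D) (u : FrS.V D) :
    FrS.bd (fun z => ∑ e, y e * P e z) u = ∑ e, y e * FrS.bd (P e) u := by
  unfold FrS.bd
  simp only [Finset.mul_sum, mul_add]
  rw [Finset.sum_comm]
  refine Finset.sum_congr rfl fun i _ => ?_
  rw [← Finset.sum_add_distrib]

theorem bd_X {v0 t : V} {y : E → ZMod 2} (hy : G.bd y = FrC.pt v0 + FrC.pt t) :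
    FrS.bd (X G ν D v0 y) = FrS.dl 0 + FrS.dl (p2 D (ν.ι t) 0) := by
  unfold X
  rw [FrS.bd_add, FrS.bd_cp]
  have h1 : FrS.bd (fun z => ∑ e, y e * Pe G ν D e z) =
      FrS.dl (p2 D (ν.ι v0) 0) + FrS.dl (p2 D (ν.ι t) 0) := by
    funext u
    rw [bd_lin]
    have h2 : ∑ e, y e * FrS.bd (Pe G ν D e) u =
        ∑ v, G.bd y v * FrS.dl (p2 D (ν.ι v) 0) u := by
      simp only [bd_Pe, Pi.add_apply, FrC.Gph.bd, Finset.sum_mul]
      rw [Finset.sum_comm]
      refine Finset.sum_congr rfl fun e _ => ?_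
      simp only [add_mul, ite_mul, zero_mul, Finset.sum_add_distrib, Finset.sum_ite_eq,
        Finset.mem_univ, if_true, mul_add]
    rw [h2, hy]
    simp only [Pi.add_apply, add_mul, Finset.sum_add_distrib, FrC.pt]
    congr 1
    · rw [Finset.sum_eq_single v0]
      · rw [Pi.single_eq_same, one_mul]
      · intro v _ hv
        rw [Pi.single_eq_of_ne hv, zero_mul]
      · intro h; exact absurd (Finset.mem_univ _) h
    · rw [Finset.sum_eq_single t]
      · rw [Pi.single_eq_same, one_mul]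
      · intro v _ hv
        rw [Pi.single_eq_of_ne hv, zero_mul]
      · intro h; exact absurd (Finset.mem_univ _) h
  rw [h1]
  set a := (FrS.dl (0 : FrS.V D) : FrS.V D → ZMod 2)
  set b := (FrS.dl (p2 D (ν.ι v0) 0) : FrS.V D → ZMod 2)
  set c := (FrS.dl (p2 D (ν.ι t) 0) : FrS.V D → ZMod 2)
  have : a + b + (b + c) = a + c + (b + b) := by abel
  rw [this, FrS.add_self_fun, add_zero]

theorem supp_X (v0 : V) (y : E → ZMod 2) : FrS.Supp n (X G ν D v0 y) := by
  have hn : 0 < n := by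
    have := ν.ι_rg v0
    omega
  have h0 : (0 : ℤ) ≤ 0 ∧ (0 : ℤ) < n := ⟨le_rfl, by exact_mod_cast hn⟩
  have hz : (0 : FrS.V D) ∈ FrS.box D n := by
    rw [FrS.mem_box]
    intro k
    exact h0
  unfold X
  refine (FrS.supp_cp hz (p2_mem_box (ν.ι_rg _) h0)).add ?_
  intro z hz'
  refine Finset.sum_eq_zero fun e _ => ?_
  have h1 : FrS.Supp n (Pe G ν D e) := by
    unfold Pe
    exact (FrS.supp_cp (p2_mem_box (ν.ι_rg _) (ν.η_rg _)) (p2_mem_box (ν.ι_rg _) h0)).add
      (FrS.supp_cp (p2_mem_box (ν.ι_rg _) (ν.η_rg _)) (p2_mem_box (ν.ι_rg _) h0))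
  rw [h1 z hz', mul_zero]

theorem Yt_X {v0 t : V} {y : E → ZMod 2} (hy : G.bd y = FrC.pt v0 + FrC.pt t) :
    p2 D (ν.ι t) 0 ∈ FrS.box D n ∧ FrS.Yt n (p2 D (ν.ι t) 0) (X G ν D v0 y) := by
  have hn : 0 < n := by
    have := ν.ι_rg v0
    omega
  exact ⟨p2_mem_box (ν.ι_rg _) ⟨le_rfl, by exact_mod_cast hn⟩, supp_X G ν v0 y, bd_X G ν hy⟩

end

end FrD
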