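import Pool.Agent.Lib.MP_51bb46_lc.D.Emb
import Pool.Agent.Lib.MP_51bb46_lc.S.SemL

/-!
A level interpretation on the grid gives a valuation on every graph embedded in the grid.
-/

set_option linter.unusedSectionVars false

namespace FrD

open Finset Fr56
open scoped Classical

section
variable {V E : Type} [Fintype V] [Fintype E] [DecidableEq V] [DecidableEq E] {G : FrC.Gph V E}
  (Fr : FrC.Frame G) (v0 : V) {D n : ℕ} (ν : Nmb V E n)

/-- the local truth relation: the tree of `f` reads only revealed edges and has the value `b` -/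
def dQ (I : FrS.Ob (FrS.E D) → FrS.DT (FrS.E D) Bool) (f : Fm (FrS.E D)) (b : Bool) (U : Finset V)
    (y : E → ZMod 2) : Prop :=
  (∀ z ∈ (I (f.map Sum.inl)).reads (X G ν D v0 y), rv G ν z ⊆ U) ∧
    (I (f.map Sum.inl)).val (X G ν D v0 y) = b

variable {Obs Cls : Set (FrS.Ob (FrS.E D))} {k S : ℕ} {I : FrS.Ob (FrS.E D) → FrS.DT (FrS.E D) Bool}

theorem dQ_far {f : Fm (FrS.E D)} {b : Bool} {U : Finset V} {y : E → ZMod 2} {t : V}
    (h : dQ v0 ν (G := G) I f b U y) (ht : t ∉ U) :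
    FrS.Far ((I (f.map Sum.inl)).reads (X G ν D v0 y)) (p2 D (ν.ι t) 0 0) := by
  intro z hz
  rw [p2_zero]
  exact far_of_rv G ν (h.1 z hz) ht

/-- the valuation -/
def dVal (hI : FrS.IsLvl Obs Cls n k S I) (Fs : Finset (Fm (FrS.E D)))
    (hFs : ∀ f ∈ Fs, f.map Sum.inl ∈ Obs ∧ f.leaves ≤ S) (cap : ℕ) :
    FrC.Valn Fr v0 (FrS.E D) {f | f ∈ Fs} cap where
  Q := dQ v0 ν (G := G) I
  mono := by
    intro f _ b U U' y y' hU _ hQ hag _
    obtain ⟨h1, h2⟩ := hQ
    have h3 := FrS.DT.congr (I (f.map Sum.inl)) (x := X G ν D v0 y) (x' := X G ν D v0 y')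
      fun z hz => (X_congr G ν (h1 z hz) hag).symm
    refine ⟨?_, h3.2.trans h2⟩
    rw [h3.1]
    exact fun z hz => (h1 z hz).trans hU
  uniq := by
    intro f _ U y _ _ h1 h2
    have := h1.2.symm.trans h2.2
    exact Bool.noConfusion this
  neg := by
    rintro f hf hn b b' U y _ ⟨t, ht, hfree⟩ h1 h2
    have htU := Fr.disj hfree
    obtain ⟨hb, hY⟩ := Yt_X G ν (D := D) ht
    have := hI.neg (f.map Sum.inl) (hFs _ hn).1 (by rw [FrS.semL_vl2]; exact (hFs f hf).2) _ hb _ hY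
      (dQ_far v0 ν h1 htU) (dQ_far v0 ν h2 htU)
    rw [h1.2] at this
    exact h2.2.symm.trans this
  and := by
    rintro f g _ _ hfg b b' b'' U y _ ⟨t, ht, hfree⟩ h1 h2 h3
    have htU := Fr.disj hfree
    obtain ⟨hb, hY⟩ := Yt_X G ν (D := D) ht
    have := hI.and (f.map Sum.inl) (g.map Sum.inl) (hFs _ hfg).1
      (by rw [FrS.semL_vl2, FrS.semL_vl2]; exact (hFs _ hfg).2) _ hb _ hY
      (dQ_far v0 ν h1 htU) (dQ_far v0 ν h2 htU) (dQ_far v0 ν h3 htU)
    rw [h1.2, h2.2] at this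
    exact h3.2.symm.trans this
  or := by
    rintro f g _ _ hfg b b' b'' U y _ ⟨t, ht, hfree⟩ h1 h2 h3
    have htU := Fr.disj hfree
    obtain ⟨hb, hY⟩ := Yt_X G ν (D := D) ht
    have := hI.or (f.map Sum.inl) (g.map Sum.inl) (hFs _ hfg).1
      (by rw [FrS.semL_vl2, FrS.semL_vl2]; exact (hFs _ hfg).2) _ hb _ hY
      (dQ_far v0 ν h1 htU) (dQ_far v0 ν h2 htU) (dQ_far v0 ν h3 htU)
    rw [h1.2, h2.2] at this
    exact h3.2.symm.trans this

/-- running a decision tree -/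
theorem dec_run (Q : Bool → Finset V → (E → ZMod 2) → Prop) (A : FrS.DT (FrS.E D) Bool)
    (hQ : ∀ b U y, (∀ z ∈ A.reads (X G ν D v0 y), rv G ν z ⊆ U) → A.val (X G ν D v0 y) = b →
      Q b U y) (B : FrS.DT (FrS.E D) Bool) :
    ∀ (L : List (FrS.E D)) (U : Finset V) (y : E → ZMod 2), (∀ z ∈ L, rv G ν z ⊆ U) →
      (∀ y', G.Agree U y y' → A.reads (X G ν D v0 y') = L ++ B.reads (X G ν D v0 y') ∧
        A.val (X G ν D v0 y') = B.val (X G ν D v0 y')) →
      FrC.Dec Fr v0 Q (4 * B.depth) U y := by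
  induction B with
  | leaf b =>
    intro L U y hL h
    obtain ⟨h1, h2⟩ := h y (fun _ _ => rfl)
    refine FrC.Dec.leaf b (hQ b U y ?_ h2)
    rw [h1]
    intro z hz
    rw [FrS.DT.reads, List.append_nil] at hz
    exact hL z hz
  | node e l r ihl ihr =>
    intro L U y hL h
    have hdep : 4 * (FrS.DT.node e l r).depth = 4 + 4 * max l.depth r.depth := by
      rw [FrS.DT.depth]; ring
    rw [hdep]
    refine FrC.Dec.node (rv G ν e) (card_rv G ν e) fun y' hag _ => ?_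
    have hL' : ∀ z ∈ L ++ [e], rv G ν z ⊆ U ∪ rv G ν e := by
      intro z hz
      rw [List.mem_append, List.mem_singleton] at hz
      rcases hz with hz | rfl
      · exact (hL z hz).trans Finset.subset_union_left
      · exact Finset.subset_union_right
    have hagr : ∀ y'', G.Agree (U ∪ rv G ν e) y' y'' → G.Agree U y y'' := fun y'' h' =>
      hag.trans (h'.mono Finset.subset_union_left)
    have hxe : ∀ y'', G.Agree (U ∪ rv G ν e) y' y'' →
        X G ν D v0 y'' e = X G ν D v0 y' e := fun y'' h' =>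
      (X_congr G ν Finset.subset_union_right h').symm
    by_cases h0 : X G ν D v0 y' e = 0
    · refine (ihl (L ++ [e]) (U ∪ rv G ν e) y' hL' fun y'' h' => ?_).mono
        (Nat.mul_le_mul_left _ (le_max_left _ _))
      obtain ⟨h1, h2⟩ := h y'' (hagr y'' h')
      have h3 : X G ν D v0 y'' e = 0 := (hxe y'' h').trans h0
      rw [h1, h2]
      simp only [FrS.DT.reads, FrS.DT.val, if_pos h3, List.append_assoc, List.singleton_append,
        and_self]
    · refine (ihr (L ++ [e]) (U ∪ rv G ν e) y' hL' fun y'' h' => ?_).mono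
        (Nat.mul_le_mul_left _ (le_max_right _ _))
      obtain ⟨h1, h2⟩ := h y'' (hagr y'' h')
      have h3 : ¬ X G ν D v0 y'' e = 0 := fun hc => h0 ((hxe y'' h').symm.trans hc)
      rw [h1, h2]
      simp only [FrS.DT.reads, FrS.DT.val, if_neg h3, List.append_assoc, List.singleton_append,
        and_self]

theorem dVal_dcds (hI : FrS.IsLvl Obs Cls n k S I) (Fs : Finset (Fm (FrS.E D)))
    (hFs : ∀ f ∈ Fs, f.map Sum.inl ∈ Obs ∧ f.leaves ≤ S) (cap : ℕ) :
    (dVal Fr v0 ν hI Fs hFs cap).Dcds (4 * k) := by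
  intro f hf y _
  have hd : (I (f.map Sum.inl)).depth ≤ k :=
    hI.depth _ (hFs f hf).1 (by rw [FrS.semL_vl2]; exact (hFs f hf).2)
  refine (dec_run Fr v0 ν _ (I (f.map Sum.inl)) (fun b U y h1 h2 => ⟨h1, h2⟩)
    (I (f.map Sum.inl)) [] ∅ y (by simp) fun y' _ => ⟨by simp, rfl⟩).mono
    (Nat.mul_le_mul_left _ hd)

/-- **valuation from a level interpretation** -/
theorem valn_of_level (ν : Nmb V E n) (h0 : Fr.Free ∅ v0) {N : ℕ} (hN : 2 ≤ N)
    (hI : FrS.IsLvl Obs (FrS.ClsOf D N) n k S I)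
    (Fs : Finset (Fm (FrS.E D))) (hFs : ∀ f ∈ Fs, f.map Sum.inl ∈ Obs ∧ f.leaves ≤ S) (cap kk : ℕ)
    (hkk : 4 * k ≤ kk) (hcap : cap ≤ Fr.m) (h4 : 4 * kk ≤ cap)
    (hTs : ∀ B ∈ (FrS.Ts D N).subs, B ∈ Fs) :
    ∃ S' : FrC.Valn Fr v0 (FrS.E D) {f | f ∈ Fs} cap, S'.Dcds kk ∧ S'.True' kk (FrS.Ts D N) := by
  set S' := dVal Fr v0 ν hI Fs hFs cap with hS'
  have hD : S'.Dcds kk := fun f hf y hy => (dVal_dcds Fr v0 ν hI Fs hFs cap f hf y hy).mono hkk
  refine ⟨S', hD, ?_⟩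
  refine FrS.Ts_induction hN (fun f => S'.True' kk f) ?_ ?_
  · rintro p hp hps U y hU ⟨t, ht, hfree⟩ hQ
    have htU := Fr.disj hfree
    obtain ⟨hb, hY⟩ := Yt_X G ν (D := D) ht
    have h1 := hI.cls _ ⟨p, hp, rfl⟩ _ hb _ hY (dQ_far v0 ν hQ htU)
    have h2 := hQ.2
    rw [h1] at h2
    exact Bool.noConfusion h2
  · intro f g hfg h1 h2
    have m1 : f ∈ (Fm.and f g).subs := by
      simp only [Fm.subs, List.mem_cons, List.mem_append]
      exact Or.inr (Or.inl (Fm.self_mem_subs _))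
    have m2 : g ∈ (Fm.and f g).subs := by
      simp only [Fm.subs, List.mem_cons, List.mem_append]
      exact Or.inr (Or.inr (Fm.self_mem_subs _))
    exact S'.and_true hcap h0 kk hD h4 f g (hTs _ (Fm.subs_trans m1 hfg))
      (hTs _ (Fm.subs_trans m2 hfg)) (hTs _ hfg) h1 h2

end

end FrD
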