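import Pool.Agent.Lib.MP_51bb46_lc.S.Final
import Pool.Agent.Lib.MP_51bb46_lc.C.Towers
import Pool.Agent.Lib.MP_51bb46_lc.D.Val

section

/-!
Choice of the parameters for Theorem D.
-/

set_option linter.unusedSectionVars false

namespace FrS

open Finset

/-- **choice of parameters**; `k = s ^ (8 (D + 3) + 5)` and the coarsest grid has side at least
`s ^ a0` -/
theorem numericD (D : ℕ) (ε : ℝ) (hε : 0 < ε) (a0 : ℕ) : ∃ c : ℝ, 0 < c ∧ ∀ C : ℕ, ∃ N₀ : ℕ,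
    ∀ N ≥ N₀,
    ∃ (s L T m k q s1 stot w K H l rho : ℕ) (lam : ℝ) (nn : ℕ → ℕ),
      (∀ j < L, Num D (nn j) T m k q s1 stot w K H lam) ∧ (∀ j < L, nn j * T ≤ nn (j + 1)) ∧
      nn L = N ∧ 2 * (D + 3) < l ∧ l ≤ k ∧ 1 ≤ rho ∧ 8 * rho + 8 ≤ m ∧
      (C ≤ s ∧ k = s ^ (8 * (D + 3) + 5) ∧ s ^ a0 ≤ nn 0) ∧
      (N : ℝ) ^ (2 * (D + 2) - ε) ≤ (l * rho ^ L : ℕ) ∧
      N ^ (D + 3) * 2 ^ (2 * (D + 3)) * (4 * (D + 3) + 1) * 2 ≤ l * rho ^ L ∧
      (N : ℝ) ^ c ≤ s ∧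
      ∀ P : ℕ, P ≤ 2 ^ s + l * rho ^ L → P * (2 * P * (P + 1)) + 2 ≤ H ∧ P ≤ 2 ^ (s * k) := by
  -- parameters
  set e' : ℝ := min ε (1 / 2) with he'
  have he'0 : 0 < e' := lt_min hε (by norm_num)
  have he'1 : e' ≤ 1 / 2 := min_le_right _ _
  have he'ε : e' ≤ ε := min_le_left _ _
  obtain ⟨χ, hχ⟩ : ∃ χ : ℕ, χ = 2 * (D + 3) * (D + 2) := ⟨_, rfl⟩
  obtain ⟨d, hd⟩ : ∃ d : ℕ, d = D + 3 := ⟨_, rfl⟩
  obtain ⟨tau, ht1, ht2⟩ : ∃ tau : ℕ, (2 * χ + 16 * d + 16 : ℝ) ≤ tau * e' ∧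
      χ + 8 * d + 7 ≤ tau * (D + 2) := by
    refine ⟨max ⌈(2 * χ + 16 * d + 16 : ℝ) / e'⌉₊ (χ + 8 * d + 7), ?_, ?_⟩
    · rw [← div_le_iff₀ he'0]
      refine (Nat.le_ceil _).trans ?_
      exact_mod_cast le_max_left _ _
    · calc χ + 8 * d + 7 = (χ + 8 * d + 7) * 1 := (mul_one _).symm
        _ ≤ (max ⌈(2 * χ + 16 * d + 16 : ℝ) / e'⌉₊ (χ + 8 * d + 7)) * (D + 2) :=
          Nat.mul_le_mul (le_max_right _ _) (by omega)
  obtain ⟨mu', hmu'⟩ := Nat.exists_eq_add_of_le ht2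
  obtain ⟨mu, hmu⟩ : ∃ mu : ℕ, mu = mu' + 1 := ⟨_, rfl⟩
  have hmu1 : 1 ≤ mu := by omega
  have htau : mu + χ + 8 * d + 6 = tau * (D + 2) := by omega
  obtain ⟨nu, hnu⟩ : ∃ nu : ℕ, nu = 2 * mu + 8 * d + 20 + a0 := ⟨_, rfl⟩
  obtain ⟨L, hL⟩ : ∃ L : ℕ, L = 2 * (D + 2) * nu + 4 := ⟨_, rfl⟩
  obtain ⟨M, hM⟩ : ∃ M : ℕ, M = nu + tau * L := ⟨_, rfl⟩
  have hM1 : 1 ≤ M := by omega
  have hL1 : 1 ≤ L := by omega
  -- exponent inequality
  have hexp : (M : ℝ) * (2 * (D + 2) - e') ≤ ((2 * mu - 2 : ℕ) * L : ℕ) := by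
    have h1 : ((2 * mu - 2 : ℕ) : ℝ) = 2 * tau * (D + 2) - 2 * χ - 16 * d - 14 := by
      have h2 : (2 * mu - 2) + 2 * χ + 16 * d + 14 = 2 * (tau * (D + 2)) := by omega
      have h3 : ((2 * mu - 2 : ℕ) : ℝ) + 2 * χ + 16 * d + 14 = 2 * (tau * (D + 2)) := by
        exact_mod_cast h2
      linarith
    have h4 : (M : ℝ) = nu + tau * L := by rw [hM]; push_cast; ring
    have h5 : (L : ℝ) = 2 * (D + 2) * nu + 4 := by rw [hL]; push_cast; ring
    have hnu0 : (0 : ℝ) ≤ nu := Nat.cast_nonneg _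
    have hL0 : (0 : ℝ) ≤ L := Nat.cast_nonneg _
    have hD0 : (0 : ℝ) ≤ D := Nat.cast_nonneg _
    rw [Nat.cast_mul, h1, h4]
    have h6 : (0 : ℝ) ≤ L * (tau * e' - 2 * χ - 16 * d - 16) :=
      mul_nonneg hL0 (by linarith)
    have h7 : (0 : ℝ) ≤ nu * e' := mul_nonneg hnu0 he'0.le
    nlinarith [h6, h7, h5]
  have hexpD : M * (D + 3) ≤ (2 * mu - 2) * L := by
    have h1 : ((M * (D + 3) : ℕ) : ℝ) ≤ ((2 * mu - 2 : ℕ) * L : ℕ) := by
      refine le_trans ?_ hexp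
      push_cast
      have hM0 : (0 : ℝ) ≤ M := Nat.cast_nonneg _
      have hD0 : (0 : ℝ) ≤ D := Nat.cast_nonneg _
      apply mul_le_mul_of_nonneg_left _ hM0
      linarith
    exact_mod_cast h1
  refine ⟨1 / (2 * M + 2), by positivity, fun C => ?_⟩
  obtain ⟨s₀, hs₀⟩ := num_pow D tau mu M hmu1 (by rw [← htau, hχ, hd])
  obtain ⟨E, hE⟩ : ∃ E : ℕ, E = 1 + (2 * mu - 2) * L := ⟨_, rfl⟩
  obtain ⟨K₁, hK₁⟩ : ∃ K₁ : ℕ, K₁ = 2 ^ (M * (D + 3)) *
    (2 ^ (2 * (D + 3)) * (4 * (D + 3) + 1) * 2) := ⟨_, rfl⟩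
  obtain ⟨K₂, hK₂⟩ : ∃ K₂ : ℕ, K₂ = 2 ^ (2 * M * (D + 2)) := ⟨_, rfl⟩
  obtain ⟨S, hS⟩ : ∃ S : ℕ, S = s₀ + 2 * (D + 3) + 16 + (2 * C + 7) + K₁ + K₂ + (12 * E + 8) :=
    ⟨_, rfl⟩
  refine ⟨S ^ M, fun N hN => ?_⟩
  obtain ⟨s, hsN, hNs⟩ := exists_root_nat M N hM1
  have hSs : S ≤ s := by
    by_contra h
    push Not at h
    have : (s + 1) ^ M ≤ S ^ M := Nat.pow_le_pow_left h M
    omega
  have hs1 : 1 ≤ s := by omega
  have hNs2 : N ≤ (2 * s) ^ M := hNs.le.trans (Nat.pow_le_pow_left (by omega) M)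
  have hN1 : 1 ≤ N := le_trans (Nat.one_le_pow _ _ hs1) hsN
  have hX : s * (s ^ (2 * mu - 2)) ^ L = s ^ E := by
    rw [← pow_mul, hE, pow_add, pow_one]
  refine ⟨s, L, s ^ tau, s ^ (2 * mu - 1), s ^ (8 * (D + 3) + 5), 2 * (M + 6) * s, s, s ^ 9,
    s ^ (2 * mu + 8 * (D + 3) + 11), s ^ 8, s ^ s, s, s ^ (2 * mu - 2), (s : ℝ),
    fun j => if j < L then s ^ (nu + tau * j) else N, ?_, ?_, ?_, ?_, ?_, ?_, ?_, ?_, ?_, ?_, ?_, ?_⟩
  · intro j hj
    simp only [if_pos hj]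
    refine hs₀ s (by omega) _ (by omega) ?_
    rw [hM]
    have : tau * j ≤ tau * L := Nat.mul_le_mul_left _ hj.le
    omega
  · intro j hj
    simp only [if_pos hj]
    by_cases hj1 : j + 1 < L
    · rw [if_pos hj1, ← pow_add]
      apply le_of_eq
      congr 1
      ring
    · rw [if_neg hj1, ← pow_add]
      refine le_trans (le_of_eq ?_) hsN
      have : j + 1 = L := by omega
      rw [hM, ← this]
      congr 1
      ring
  · simp
  · omega
  · exact Nat.le_self_pow (by omega) s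
  · exact Nat.one_le_pow _ _ hs1
  · have h1 : s ^ (2 * mu - 1) = s * s ^ (2 * mu - 2) := by
      rw [← pow_succ']
      congr 1
      omega
    rw [h1]
    have h2 : 1 ≤ s ^ (2 * mu - 2) := Nat.one_le_pow _ _ hs1
    have h3 : 16 * s ^ (2 * mu - 2) ≤ s * s ^ (2 * mu - 2) :=
      Nat.mul_le_mul_right _ (by omega)
    omega
  · have h0 : (if 0 < L then s ^ (nu + tau * 0) else N) = s ^ nu := by
      rw [if_pos (by omega)]
      simp
    simp only [h0]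
    exact ⟨by omega, trivial, Nat.pow_le_pow_right hs1 (by omega)⟩
  · rw [hX]
    have hs1R : (1 : ℝ) ≤ s := by exact_mod_cast hs1
    have hN1R : (1 : ℝ) ≤ N := by exact_mod_cast hN1
    have hD0 : (0 : ℝ) ≤ D := Nat.cast_nonneg _
    have hM0 : (0 : ℝ) ≤ M := Nat.cast_nonneg _
    calc (N : ℝ) ^ (2 * ((D : ℝ) + 2) - ε) ≤ (N : ℝ) ^ (2 * ((D : ℝ) + 2) - e') :=
          Real.rpow_le_rpow_of_exponent_le hN1R (by linarith)
      _ ≤ (((2 * s : ℕ) : ℝ) ^ M) ^ (2 * ((D : ℝ) + 2) - e') := by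
          apply Real.rpow_le_rpow (by linarith) _ (by linarith)
          exact_mod_cast hNs2
      _ = ((2 * s : ℕ) : ℝ) ^ ((M : ℝ) * (2 * ((D : ℝ) + 2) - e')) := by
          rw [← Real.rpow_natCast, ← Real.rpow_mul (Nat.cast_nonneg _)]
      _ = (2 : ℝ) ^ ((M : ℝ) * (2 * ((D : ℝ) + 2) - e')) *
            (s : ℝ) ^ ((M : ℝ) * (2 * ((D : ℝ) + 2) - e')) := by
          rw [Nat.cast_mul, Real.mul_rpow (by norm_num) (by linarith)]
          norm_num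
      _ ≤ (K₂ : ℝ) * (s : ℝ) ^ (((2 * mu - 2) * L : ℕ) : ℝ) := by
          apply mul_le_mul _ _ (Real.rpow_nonneg (by linarith) _) (Nat.cast_nonneg _)
          · rw [hK₂]
            push_cast
            rw [← Real.rpow_natCast]
            apply Real.rpow_le_rpow_of_exponent_le (by norm_num)
            push_cast
            nlinarith
          · exact Real.rpow_le_rpow_of_exponent_le hs1R hexp
      _ = ((K₂ * s ^ ((2 * mu - 2) * L) : ℕ) : ℝ) := by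
          rw [Real.rpow_natCast]
          push_cast
          ring
      _ ≤ ((s ^ E : ℕ) : ℝ) := by
          apply Nat.cast_le.mpr
          rw [hE, pow_add, pow_one]
          exact Nat.mul_le_mul_right _ (by omega)
  · rw [hX]
    calc N ^ (D + 3) * 2 ^ (2 * (D + 3)) * (4 * (D + 3) + 1) * 2
        ≤ ((2 * s) ^ M) ^ (D + 3) * 2 ^ (2 * (D + 3)) * (4 * (D + 3) + 1) * 2 := by
          gcongr
      _ = K₁ * s ^ (M * (D + 3)) := by
          rw [← pow_mul, mul_pow, hK₁]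
          ring
      _ ≤ s * s ^ ((2 * mu - 2) * L) :=
          Nat.mul_le_mul (by omega) (Nat.pow_le_pow_right hs1 hexpD)
      _ = s ^ E := by rw [hE, pow_add, pow_one]
  · have hs1R : (1 : ℝ) ≤ s := by exact_mod_cast hs1
    have hM0 : (0 : ℝ) ≤ M := Nat.cast_nonneg _
    calc (N : ℝ) ^ (1 / (2 * (M : ℝ) + 2))
        ≤ ((((s * s : ℕ)) : ℝ) ^ M) ^ (1 / (2 * (M : ℝ) + 2)) := by
          apply Real.rpow_le_rpow (Nat.cast_nonneg _) _ (by positivity)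
          have : N ≤ (s * s) ^ M :=
            hNs2.trans (Nat.pow_le_pow_left (Nat.mul_le_mul_right _ (by omega)) M)
          exact_mod_cast this
      _ = (s : ℝ) ^ (2 * (M : ℝ) * (1 / (2 * (M : ℝ) + 2))) := by
          rw [Nat.cast_mul, ← pow_two, ← pow_mul, ← Real.rpow_natCast,
            ← Real.rpow_mul (by linarith)]
          push_cast
          rfl
      _ ≤ (s : ℝ) ^ (1 : ℝ) := by
          apply Real.rpow_le_rpow_of_exponent_le hs1R
          rw [mul_one_div, div_le_one (by positivity)]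
          linarith
      _ = s := Real.rpow_one _
  · intro P hP
    rw [hX] at hP
    have hE1 : 1 ≤ s ^ E := Nat.one_le_pow _ _ hs1
    have h2s : 1 ≤ 2 ^ s := Nat.one_le_two_pow
    obtain ⟨Y, hY⟩ : ∃ Y, Y = 2 ^ s * s ^ E := ⟨_, rfl⟩
    have hY1 : 1 ≤ Y := by rw [hY]; exact Nat.one_le_iff_ne_zero.mpr (by positivity)
    have hPY : P ≤ 2 * Y := by
      have h1 : 2 ^ s * 1 ≤ 2 ^ s * s ^ E := Nat.mul_le_mul_left _ hE1
      have h2 : 1 * s ^ E ≤ 2 ^ s * s ^ E := Nat.mul_le_mul_right _ h2s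
      omega
    constructor
    · calc P * (2 * P * (P + 1)) + 2
          ≤ (2 * Y) * (2 * (2 * Y) * (2 * Y + Y)) + 2 * (Y * Y * Y) := by
            apply Nat.add_le_add
            · apply Nat.mul_le_mul hPY
              apply Nat.mul_le_mul (Nat.mul_le_mul_left _ hPY)
              omega
            · have : 1 ≤ Y * Y * Y := Nat.one_le_iff_ne_zero.mpr (by positivity)
              omega
        _ = 26 * (Y * Y * Y) := by ring
        _ ≤ 2 ^ 5 * (Y * Y * Y) := Nat.mul_le_mul_right _ (by norm_num)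
        _ = 2 ^ (3 * s + 5) * s ^ (3 * E) := by
            rw [hY, pow_add, mul_comm 3 s, mul_comm 3 E, pow_mul, pow_mul]
            ring
        _ ≤ 16 ^ (s - 3 * E) * s ^ (3 * E) := by
            apply Nat.mul_le_mul_right
            have : (16 : ℕ) = 2 ^ 4 := by norm_num
            rw [this, ← pow_mul]
            exact Nat.pow_le_pow_right (by norm_num) (by omega)
        _ ≤ s ^ (s - 3 * E) * s ^ (3 * E) :=
            Nat.mul_le_mul_right _ (Nat.pow_le_pow_left (by omega) _)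
        _ = s ^ s := by
            rw [← pow_add]
            congr 1
            omega
    · have h1 : s ^ E ≤ 2 ^ (s * E) := by
        rw [pow_mul]
        exact Nat.pow_le_pow_left Nat.lt_two_pow_self.le E
      calc P ≤ 2 * Y := hPY
        _ ≤ 2 * (2 ^ s * 2 ^ (s * E)) := by
            rw [hY]
            exact Nat.mul_le_mul_left _ (Nat.mul_le_mul_left _ h1)
        _ = 2 ^ (1 + s + s * E) := by rw [pow_add, pow_add, pow_one]; ring
        _ ≤ 2 ^ (s * s ^ (8 * (D + 3) + 5)) := by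
            apply Nat.pow_le_pow_right (by norm_num)
            have h2 : s ≤ s ^ (8 * (D + 3) + 5) := Nat.le_self_pow (by omega) s
            calc 1 + s + s * E ≤ s + s + s * E := by omega
              _ = s * (E + 2) := by ring
              _ ≤ s * s ^ (8 * (D + 3) + 5) := Nat.mul_le_mul_left _ (by omega)

end FrS
end

section

/-!
Theorem D: bounded depth over arbitrary formulas of size `|F| ^ (2 - ε)`.
-/

set_option linter.unusedSectionVars false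

namespace FrD

open Finset Fr56
open scoped Classical

/-- there is no refutation of small total size, given valuations for all small formulas -/
theorem no_small {V E X : Type} [Fintype V] [Fintype E] [DecidableEq V] [DecidableEq E]
    {G : FrC.Gph V E} (Fr : FrC.Frame G) (v0 : V) {d k kk cap s P : ℕ}
    (hkill : FrC.Kills Fr v0 d kk k)
    (hs : 1 ≤ s) (hkk : k * kk ≤ cap) (hcap : cap ≤ Fr.m) (hP : P ≤ 2 ^ k) (F : Fm X)
    (hFs : F.leaves ≤ s)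
    (hstage : ∀ Fs : Finset (Fm X), Fs.card ≤ P → (∀ f ∈ Fs, f.leaves ≤ s ∧ f.size ≤ P) →
      (∀ B ∈ F.subs, B ∈ Fs) → ∃ S : FrC.Valn Fr v0 X {f | f ∈ Fs} cap, S.Dcds kk ∧
        S.True' kk F)
    (R : List Rule) (hR : ∀ r ∈ R, r.Sound) (hRk : ∀ r ∈ R, r.nodes + 1 ≤ k) (b : Fm ℕ)
    (hb : b.Unsat) (hbk : b.size + 1 ≤ k) (τ : ℕ → X) (π : List (Fm X))
    (hπ : IsDerivation R F π) (hbπ : b.map τ ∈ π)
    (hlev : ∀ A ∈ π, FrC.lev s A ≤ d) (htot : F.size + (π.map Fm.size).sum ≤ P) : False := by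
  set Fs : Finset (Fm X) := ((F :: π).flatMap Fm.subs).toFinset with hFsdef
  have hmem : ∀ A, A ∈ Fs ↔ ∃ B ∈ F :: π, A ∈ B.subs := by
    intro A
    rw [hFsdef, List.mem_toFinset, List.mem_flatMap]
  have hsize : ∀ A ∈ F :: π, A.size ≤ P := by
    intro A hA
    refine le_trans ?_ htot
    rcases List.mem_cons.1 hA with rfl | hA
    · omega
    · have := List.single_le_sum (l := π.map Fm.size) (by simp) _ (List.mem_map_of_mem hA)
      omega
  have hcard : Fs.card ≤ P := by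
    refine le_trans ((List.toFinset_card_le _).trans ?_) htot
    rw [List.length_flatMap]
    have : ∀ L : List (Fm X), (L.map (fun A => (Fm.subs A).length)).sum =
        (L.map Fm.size).sum := by
      intro L
      congr 1
      apply List.map_congr_left
      intro A _
      exact Fm.length_subs A
    rw [this]
    simp
  have hsubs : ∀ f ∈ Fs, ∀ g ∈ f.subs, g ∈ Fs := by
    intro f hf g hg
    rw [hmem] at hf ⊢
    obtain ⟨B, hB, hfB⟩ := hf
    exact ⟨B, hB, Fm.subs_trans hg hfB⟩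
  have hFmem : F ∈ Fs := (hmem F).2 ⟨F, by simp, F.self_mem_subs⟩
  set Fs' := Fs.filter (fun f => f.leaves ≤ s) with hFs'
  have hlevF : ∀ f : Fm X, FrC.lev s f ≤ 0 ↔ f.leaves ≤ s := fun f => by
    rw [Nat.le_zero]; exact FrC.lev_eq_zero_iff s hs f
  obtain ⟨S, hS1, hS2⟩ := hstage Fs' ((Finset.card_filter_le _ _).trans hcard)
    (fun f hf => by
      refine ⟨(Finset.mem_filter.1 hf).2, ?_⟩
      obtain ⟨B, hB, hfB⟩ := (hmem f).1 (Finset.mem_filter.1 hf).1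
      exact (Fm.size_le_of_mem_subs hfB).trans (hsize B hB))
    (fun B hB => by
      refine Finset.mem_filter.2 ⟨hsubs F hFmem B hB, ?_⟩
      rw [← hlevF]
      exact (FrC.lev_subs s B F hB).trans ((hlevF F).2 hFs))
  have hset : {f | f ∈ Fs'} = {f | f ∈ Fs ∧ FrC.lev s f ≤ 0} := by
    ext f
    simp only [Set.mem_ofPred_eq, hFs', Finset.mem_filter, hlevF]
  have hS : ∃ S : FrC.Valn Fr v0 X {f | f ∈ Fs ∧ FrC.lev s f ≤ 0} cap, S.Dcds kk ∧
      S.True' kk F := by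
    rw [← hset]
    exact ⟨S, hS1, hS2⟩
  obtain ⟨S2, hS3, hS4⟩ := hS
  refine hkill X Fs s 0 cap S2 hs hsubs (hcard.trans hP) hkk hcap hS3 R hR hRk F hFmem
    ((hlevF F).2 hFs) hS4 b hb hbk τ π hπ hbπ (fun A hA => ⟨?_, ?_⟩)
  · exact (hmem A).2 ⟨A, by simp [hA], A.self_mem_subs⟩
  · rw [Nat.zero_add]
    exact hlev A hA

/-- a level interpretation of a finite set of small formulas -/
theorem exists_level {D : ℕ} {N : ℕ} (hN : 2 ≤ N) {L T m k q s1 stot w K H P : ℕ} {lam : ℝ}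
    {nn : ℕ → ℕ} (hnum : ∀ j < L, FrS.Num D (nn j) T m k q s1 stot w K H lam)
    (hnn : ∀ j < L, nn j * T ≤ nn (j + 1)) (hnL : nn L = N) {l rho : ℕ} (hl : 2 * (D + 3) < l)
    (hlk : l ≤ k) (hrho : 1 ≤ rho) (hm : 8 * rho + 8 ≤ m) (Fs : Finset (Fm (FrS.E D)))
    (hcard : Fs.card ≤ P) (hFs : ∀ f ∈ Fs, f.size ≤ P) (hTs : ∀ B ∈ (FrS.Ts D N).subs, B ∈ Fs)
    (hH : P * (2 * P * (P + 1)) + 2 ≤ H) :
    ∃ Obs I, FrS.IsLvl Obs (FrS.ClsOf D N) (nn 0) k (l * rho ^ L) I ∧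
      ∀ f ∈ Fs, f.map Sum.inl ∈ Obs := by
  have hself : ∀ A ∈ Fs, A.map Sum.inl ∈ FrS.ObsOf Fs.toList :=
    fun A hA => Or.inr ⟨A, Finset.mem_toList.2 hA, A, A.self_mem_subs, FrS.self_mem_obs A⟩
  have hcls : ∀ O ∈ FrS.ClsOf D N, O ∈ FrS.ObsOf Fs.toList := by
    rintro O ⟨p, hp, rfl⟩
    refine hself _ (hTs _ ?_)
    apply FrS.mem_subs_conj
    rw [List.mem_map]
    exact ⟨p, Finset.mem_toList.2 hp, rfl⟩
  have hc : (FrS.ObsOf Fs.toList).ncard ≤ H := by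
    refine ((FrS.ncard_obsOf Fs.toList (X := P)
      (fun A hA => hFs A (Finset.mem_toList.1 hA))).trans ?_).trans hH
    rw [Finset.length_toList]
    exact Nat.add_le_add_right (Nat.mul_le_mul_right _ hcard) _
  obtain ⟨I, hI⟩ := FrS.iterate (FrS.obsCl_obsOf _) (FrS.finite_obsOf _) hN hcls hnum hnn hnL hc
    hl hlk hrho hm
  exact ⟨_, I, hI, hself⟩

/-- **Theorem D, grid form** -/
theorem main_grid (D d : ℕ) (ε : ℝ) (hε : 0 < ε) : ∃ c : ℝ, 0 < c ∧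
    ∀ R : List Rule, (∀ r ∈ R, r.Sound) → ∀ b : Fm ℕ, b.Unsat →
      ∃ N₀, ∀ N ≥ N₀, ∀ π : List (Fm ℕ), IsDerivation R (FrS.TsN D N) π → b ∈ π →
        (∀ A ∈ π, ∃ (B : Fm ℕ) (σ : ℕ → Fm ℕ), A = B.subst σ ∧ FrC.depth B ≤ d ∧
          ∀ v, ((σ v).size : ℝ) ≤ (N : ℝ) ^ (2 * (D + 2) - ε)) →
        (2 : ℝ) ^ ((N : ℝ) ^ c) ≤ ((π.map Fm.size).sum : ℕ) := by
  obtain ⟨a, k0, htow⟩ := FrC.towers d 4 20
  obtain ⟨c, hc, hnumeric⟩ := FrS.numericD D ε hε ((8 * (D + 3) + 6) * (2 * a))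
  refine ⟨c, hc, fun R hR b hb => ?_⟩
  obtain ⟨C, hC, hCb⟩ : ∃ C, (∀ r ∈ R, r.nodes + 1 ≤ C) ∧ b.size + 1 ≤ C := by
    refine ⟨(R.map fun r => r.nodes + 1).sum + (b.size + 1), fun r hr => ?_, by omega⟩
    have := List.single_le_sum (l := R.map fun r => r.nodes + 1) (by simp) _
      (List.mem_map_of_mem hr)
    omega
  obtain ⟨N₁, hN₁⟩ := hnumeric (C + k0 + 4)
  refine ⟨N₁ + 2, fun N hN π hπ hbπ hs => ?_⟩
  by_contra hlt
  push Not at hlt
  obtain ⟨s, L, T, m, k, q, s1, stot, w, K, H, l, rho, lam, nn, h1, h2, h3, h4, h5, h6, h7,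
    ⟨g1, g2, g3⟩, h8, h9, h10, h11⟩ := hN₁ N (by omega)
  have hs1' : 1 ≤ s := by omega
  have hk1 : 1 ≤ k := by rw [g2]; exact Nat.one_le_pow _ _ hs1'
  -- the size parameter of the tower
  obtain ⟨κ, hκ⟩ : ∃ κ, κ = s * k := ⟨_, rfl⟩
  have hκs : s ≤ κ := by rw [hκ]; exact Nat.le_mul_of_pos_right _ hk1
  have hκk : k ≤ κ := by rw [hκ]; exact Nat.le_mul_of_pos_left _ hs1'
  obtain ⟨V, E, iV, iE, dV, dE, G, Fr, v0, hl, hdeg, h0, hcV, hcE, hBm, hkill⟩ :=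
    htow κ (by omega)
  have hκ2 : (κ + 2) ^ a ≤ nn 0 := by
    refine le_trans ?_ g3
    have e1 : κ + 2 ≤ κ * κ := by nlinarith
    have e2 : κ = s ^ (8 * (D + 3) + 6) := by rw [hκ, g2, pow_succ]; ring
    calc (κ + 2) ^ a ≤ (κ * κ) ^ a := Nat.pow_le_pow_left e1 a
      _ = κ ^ (2 * a) := by rw [← pow_two, ← pow_mul]
      _ = s ^ ((8 * (D + 3) + 6) * (2 * a)) := by rw [e2, ← pow_mul]
  obtain ⟨ν⟩ := exists_nmb (V := V) (E := E) (hcV.trans hκ2) (hcE.trans hκ2)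
  obtain ⟨S0, hS0⟩ : ∃ S0, S0 = l * rho ^ L := ⟨_, rfl⟩
  rw [← hS0] at h8 h9 h11
  have hTsize : (FrS.Ts D N).size ≤ S0 := (FrS.Ts_size (by omega)).trans h9
  have hS01 : 1 ≤ S0 := by
    have := (FrS.Ts D N).leaves_pos
    have := (FrS.Ts D N).leaves_le_size
    omega
  -- total size
  have htot : (π.map Fm.size).sum ≤ 2 ^ s := by
    have h1 : (((π.map Fm.size).sum : ℕ) : ℝ) ≤ ((2 ^ s : ℕ) : ℝ) := by
      refine hlt.le.trans ?_
      push_cast
      rw [← Real.rpow_natCast]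
      exact Real.rpow_le_rpow_of_exponent_le (by norm_num) h10
    exact_mod_cast h1
  obtain ⟨P, hPdef⟩ : ∃ P, P = (FrS.Ts D N).size + (π.map Fm.size).sum := ⟨_, rfl⟩
  obtain ⟨hPH, hPκ⟩ := h11 P (by omega)
  have hκκ : κ * (4 * κ) ≤ 4 * κ ^ 2 + 16 * κ := by nlinarith
  have hcap : 4 * κ ^ 2 + 16 * κ ≤ Fr.m := by
    refine le_trans ?_ hBm
    have : κ ≤ κ ^ 2 := by nlinarith
    omega
  refine no_small Fr v0 (d := d) (k := κ) (kk := 4 * κ) (cap := 4 * κ ^ 2 + 16 * κ) (s := S0)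
    (P := P) hkill hS01 hκκ hcap (by rw [hκ]; exact hPκ) (FrS.Ts D N)
    ((FrS.Ts D N).leaves_le_size.trans hTsize) ?_ R hR (fun r hr => (hC r hr).trans (by omega)) b hb
    (hCb.trans (by omega)) (FrS.decE D) (π.map (Fm.map (FrS.decE D))) ?_ ?_ ?_ ?_
  · intro Fs hF1 hF2 hF3
    obtain ⟨Obs, I, hI, hObs⟩ := exists_level (P := P) (by omega) h1 h2 h3 h4 h5 h6 h7 Fs hF1
      (fun f hf => (hF2 f hf).2) hF3 hPH
    rw [← hS0] at hI
    exact valn_of_level Fr v0 ν h0 (by omega) hI Fs (fun f hf => ⟨hObs f hf, (hF2 f hf).1⟩) _ _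
      (by omega) hcap (by omega) hF3
  · have := FrS.isDerivation_map (FrS.decE D) hπ
    rw [FrS.TsN_dec] at this
    exact this
  · exact List.mem_map_of_mem hbπ
  · intro A hA
    obtain ⟨A1, hA1, rfl⟩ := List.mem_map.1 hA
    obtain ⟨B, σ, rfl, hB, hσ⟩ := hs A1 hA1
    have hms : (B.subst σ).map (FrS.decE D) = B.subst (fun v => (σ v).map (FrS.decE D)) := by
      clear * -
      induction B with
      | var v => rfl
      | neg f ih => simp [Fm.map, Fm.subst, ih]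
      | and f g ihf ihg => simp [Fm.map, Fm.subst, ihf, ihg]
      | or f g ihf ihg => simp [Fm.map, Fm.subst, ihf, ihg]
    rw [hms]
    refine (FrC.lev_subst S0 B _ (fun v => ?_)).trans hB
    rw [Fm.leaves_map]
    refine (σ v).leaves_le_size.trans ?_
    exact_mod_cast (hσ v).trans h8
  · rw [List.map_map]
    refine le_of_eq ?_
    rw [hPdef]
    congr 2
    apply List.map_congr_left
    intro A _
    exact Fm.size_map _ A

/-- **Theorem D**: one family of CNFs for all depths, exponent `2 - ε` -/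
theorem main_exp (ε : ℝ) (hε : 0 < ε) : ∃ (w : ℕ) (F : ℕ → Fm ℕ),
    (∀ n, (F n).Unsat ∧ (F n).IsCNF w ∧ n ≤ (F n).size) ∧
    ∀ d : ℕ, ∃ c : ℝ, 0 < c ∧ ∀ R : List Rule, (∀ r ∈ R, r.Sound) → ∀ b : Fm ℕ, b.Unsat →
      ∃ n₀, ∀ n ≥ n₀, ∀ π : List (Fm ℕ), IsDerivation R (F n) π → b ∈ π →
        (∀ A ∈ π, ∃ (B : Fm ℕ) (σ : ℕ → Fm ℕ), A = B.subst σ ∧ FrC.depth B ≤ d ∧
          ∀ v, ((σ v).size : ℝ) ≤ ((F n).size : ℝ) ^ (2 - ε)) →
        (2 : ℝ) ^ (((F n).size : ℝ) ^ c) ≤ ((π.map Fm.size).sum : ℕ) := by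
  -- the dimension
  obtain ⟨D, hD⟩ : ∃ D : ℕ, 4 ≤ ((D : ℝ) + 3) * ε := by
    obtain ⟨D, hD⟩ := exists_nat_ge (4 / ε)
    refine ⟨D, ?_⟩
    rw [div_le_iff₀ hε] at hD
    nlinarith
  set K : ℝ := 2 ^ (2 * (D + 3)) * (4 * (D + 3) + 1) * 2 with hK
  have hK1 : 1 ≤ K := by
    rw [hK]
    have h1 : (1 : ℝ) ≤ 2 ^ (2 * (D + 3)) := one_le_pow₀ (by norm_num)
    have h2 : (1 : ℝ) ≤ 4 * (D + 3) + 1 := by
      have : (0 : ℝ) ≤ D := Nat.cast_nonneg D
      linarith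
    nlinarith [mul_le_mul h1 h2 zero_le_one (zero_le_one.trans h1)]
  have hsize : ∀ n : ℕ, ((FrS.TsN D (n + 2)).size : ℝ) ≤ K * ((n + 2 : ℕ) : ℝ) ^ (D + 3) := by
    intro n
    rw [FrS.TsN_size]
    have h := FrS.Ts_size (D := D) (N := n + 2) (by omega)
    have h' : ((FrS.Ts D (n + 2)).size : ℝ) ≤
        (((n + 2) ^ (D + 3) * 2 ^ (2 * (D + 3)) * (4 * (D + 3) + 1) * 2 : ℕ) : ℝ) := by
      exact_mod_cast h
    refine h'.trans (le_of_eq ?_)
    rw [hK]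
    push_cast
    ring
  refine ⟨2 * (D + 3), fun n => FrS.TsN D (n + 2), fun n => ⟨FrS.TsN_unsat D (by omega),
    FrS.TsN_cnf D (by omega), ?_⟩, fun d => ?_⟩
  · rw [FrS.TsN_size]
    refine le_trans ?_ (FrS.le_Ts_size (by omega))
    calc n ≤ n + 2 := by omega
      _ = (n + 2) ^ 1 := (pow_one _).symm
      _ ≤ (n + 2) ^ (D + 3) := Nat.pow_le_pow_right (by omega) (by omega)
  · obtain ⟨c, hc, hmain⟩ := main_grid D d 1 one_pos
    set c' : ℝ := c / (2 * (D + 3)) with hc'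
    have hc'0 : 0 < c' := by positivity
    refine ⟨c', hc'0, fun R hR b hb => ?_⟩
    obtain ⟨N₀, hN₀⟩ := hmain R hR b hb
    obtain ⟨N₁, hN₁⟩ := FrS.eventually_const_le (K ^ (2 : ℝ)) 1 one_pos
    obtain ⟨N₂, hN₂⟩ := FrS.eventually_const_le (K ^ c') (c / 2) (by positivity)
    refine ⟨N₀ + N₁ + N₂, fun n hn π hπ hbπ hs => ?_⟩
    set N : ℕ := n + 2 with hN
    have hNpos : (0 : ℝ) < (N : ℝ) := by rw [hN]; positivity
    have hN1 : (1 : ℝ) ≤ (N : ℝ) := by rw [hN]; push_cast; linarith [(Nat.cast_nonneg n : (0:ℝ) ≤ n)]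
    have hF := hsize n
    have hF1 : (1 : ℝ) ≤ ((FrS.TsN D N).size : ℝ) := by
      have h1 := FrS.le_Ts_size (D := D) (N := N) (by omega)
      have h2 : 1 ≤ N ^ (D + 3) := Nat.one_le_pow _ _ (by omega)
      rw [FrS.TsN_size]
      exact_mod_cast h2.trans h1
    have key : ∀ a : ℝ, 0 ≤ a →
        ((FrS.TsN D N).size : ℝ) ^ a ≤ K ^ a * (N : ℝ) ^ ((D + 3) * a) := by
      intro a ha
      calc ((FrS.TsN D N).size : ℝ) ^ a ≤ (K * ((N : ℕ) : ℝ) ^ (D + 3)) ^ a := by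
            apply Real.rpow_le_rpow (by linarith) _ ha
            exact hF
        _ = K ^ a * (N : ℝ) ^ ((D + 3) * a) := by
            rw [Real.mul_rpow (by linarith) (by positivity), ← Real.rpow_natCast,
              ← Real.rpow_mul hNpos.le]
            push_cast
            rfl
    have hbound : ((FrS.TsN D N).size : ℝ) ^ (2 - ε) ≤ (N : ℝ) ^ (2 * ((D : ℝ) + 2) - 1) := by
      by_cases h2ε : 0 ≤ 2 - ε
      · calc ((FrS.TsN D N).size : ℝ) ^ (2 - ε) ≤ K ^ (2 - ε) * (N : ℝ) ^ ((D + 3) * (2 - ε)) :=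
              key _ h2ε
          _ ≤ (N : ℝ) ^ (1 : ℝ) * (N : ℝ) ^ (2 * ((D : ℝ) + 2) - 2) := by
              have h1 : K ^ (2 - ε) ≤ (N : ℝ) ^ (1 : ℝ) :=
                (Real.rpow_le_rpow_of_exponent_le hK1 (by linarith)).trans (hN₁ N (by omega))
              have h2 : (N : ℝ) ^ (((D : ℝ) + 3) * (2 - ε)) ≤ (N : ℝ) ^ (2 * ((D : ℝ) + 2) - 2) := by
                apply Real.rpow_le_rpow_of_exponent_le hN1
                nlinarith
              gcongr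
          _ = (N : ℝ) ^ (2 * ((D : ℝ) + 2) - 1) := by
              rw [← Real.rpow_add hNpos]
              congr 1
              ring
      · push Not at h2ε
        calc ((FrS.TsN D N).size : ℝ) ^ (2 - ε) ≤ 1 :=
              Real.rpow_le_one_of_one_le_of_nonpos hF1 h2ε.le
          _ ≤ (N : ℝ) ^ (2 * ((D : ℝ) + 2) - 1) := by
              apply Real.one_le_rpow hN1
              have : (0 : ℝ) ≤ D := Nat.cast_nonneg D
              linarith
    have hlen := hN₀ N (by omega) π hπ hbπ (fun A hA => by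
      obtain ⟨B, σ, h1, h2, h3⟩ := hs A hA
      exact ⟨B, σ, h1, h2, fun v => (h3 v).trans hbound⟩)
    refine le_trans ?_ hlen
    apply Real.rpow_le_rpow_of_exponent_le (by norm_num)
    calc ((FrS.TsN D N).size : ℝ) ^ c' ≤ K ^ c' * (N : ℝ) ^ ((D + 3) * c') := key c' hc'0.le
      _ ≤ (N : ℝ) ^ (c / 2) * (N : ℝ) ^ (c / 2) := by
          have h1 := hN₂ N (by omega)
          have h2 : ((D : ℝ) + 3) * c' = c / 2 := by
            rw [hc']
            field_simp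
          rw [h2]
          gcongr
      _ = (N : ℝ) ^ c := by
          rw [← Real.rpow_add hNpos]
          congr 1
          ring

end FrD
end
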